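import Pool.Agent.R466.Div

/-!
For all primes `p < q` and every `b ≥ 1`, `p` divides `B(p q^b)`, the maximal height of a divisor
of `X ^ (p q^b) - 1`.
-/

namespace Pool.Agent.Results.MP_b384de_nt.PrimeDvdB

open Polynomial Pool.Agent.R466

/-- For primes `p < q` and `b ≥ 1`, the maximal height `B(p q^b)` is divisible by `p`. -/
theorem result (p q : ℕ) (hp : p.Prime) (hq : q.Prime) (hpq : p < q) (b : ℕ) (hb : 0 < b) :
    p ∣ B (p * q ^ b) := by
  have : Fact p.Prime := ⟨hp⟩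
  have : Fact q.Prime := ⟨hq⟩
  obtain ⟨c, rfl⟩ : ∃ c, b = c + 1 := ⟨b - 1, by omega⟩
  obtain ⟨t, -, h⟩ := B_eq hpq c
  exact ⟨_, h⟩

end Pool.Agent.Results.MP_b384de_nt.PrimeDvdB
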